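import Pool.Agent.T9h42.GF.Spec

/-!
# Boxes of polynomials
-/

set_option autoImplicit false

namespace Pool.Agent.T9h58.GF

open Polynomial Finset
open Pool.Agent.T9h42.GF (Box Cop mdiv BoxMem)

section
variable {k : Type} [Field k] [Fintype k]

theorem mem_Box (g x : k[X]) (D : ℕ) : x ∈ Box g D ↔ (x - g).degree < D := by
  classical
  unfold Box
  rw [mem_image]
  constructor
  · rintro ⟨v, -, rfl⟩
    rw [add_sub_cancel_left]
    exact degree_sum_fin_lt v
  · intro h
    refine ⟨fun i => (x - g).coeff i, mem_univ _, ?_⟩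
    have h1 : (x - g) = ∑ i ∈ range D, C ((x - g).coeff i) * X ^ i := by
      by_cases h0 : x - g = 0
      · rw [h0]
        simp
      · exact as_sum_range_C_mul_X_pow' (x - g) ((natDegree_lt_iff_degree_lt h0).2 h)
    have h2 : ∑ i : Fin D, C ((x - g).coeff i) * X ^ (i : ℕ) = x - g := by
      rw [Fin.sum_univ_eq_sum_range (fun i => C ((x - g).coeff i) * X ^ i) D]
      exact h1.symm
    rw [h2]
    ring

theorem mem_Box_X (x : k[X]) (D : ℕ) : x ∈ Box (X ^ D : k[X]) D ↔ x.Monic ∧ x.natDegree = D := by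
  rw [mem_Box]
  constructor
  · intro h
    obtain ⟨p, rfl⟩ : ∃ p, x = X ^ D + p := ⟨x - X ^ D, by ring⟩
    rw [add_sub_cancel_left] at h
    refine ⟨monic_X_pow_add h, ?_⟩
    rw [natDegree_add_eq_left_of_degree_lt (by rwa [degree_X_pow]), natDegree_X_pow]
  · rintro ⟨h1, h2⟩
    have h3 : x.degree = D := by rw [degree_eq_natDegree h1.ne_zero, h2]
    have h4 : x.degree = ((X : k[X]) ^ D).degree := by rw [h3, degree_X_pow]
    have h5 := degree_sub_lt_left h4 h1.ne_zero (by rw [h1.leadingCoeff, leadingCoeff_X_pow])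
    rwa [h3] at h5

theorem mem_Cop (M x : k[X]) (D : ℕ) : x ∈ Cop M D ↔ x.Monic ∧ x.natDegree = D ∧ IsCoprime x M := by
  classical
  unfold Cop
  rw [mem_filter, mem_Box_X, and_assoc]

theorem mem_mdiv (h g : k[X]) (hh : h ≠ 0) : g ∈ mdiv h ↔ g.Monic ∧ g ∣ h := by
  classical
  unfold mdiv
  rw [mem_filter, mem_biUnion]
  constructor
  · rintro ⟨⟨D, -, h1⟩, h2⟩
    exact ⟨((mem_Box_X _ _).1 h1).1, h2⟩
  · rintro ⟨h1, h2⟩
    exact ⟨⟨g.natDegree, mem_range.2 (Nat.lt_succ_of_le (natDegree_le_of_dvd h2 hh)),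
      (mem_Box_X _ _).2 ⟨h1, rfl⟩⟩, h2⟩

theorem card_Box (g : k[X]) (D : ℕ) : (Box g D).card = Fintype.card k ^ D := by
  classical
  unfold Box
  rw [card_image_of_injective, card_univ, Fintype.card_fun, Fintype.card_fin]
  intro v w hvw
  simp only [add_right_inj] at hvw
  funext i
  have h1 : ∀ u : Fin D → k, (∑ j : Fin D, C (u j) * X ^ (j : ℕ)).coeff i = u i := by
    intro u
    rw [finsetSum_coeff, sum_eq_single i]
    · simp
    · intro j _ hj
      rw [coeff_C_mul_X_pow, if_neg]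
      exact fun h => hj (Fin.ext h.symm)
    · exact fun h => absurd (mem_univ _) h
  rw [← h1 v, ← h1 w, hvw]

end

theorem boxMem : BoxMem := fun _ _ _ =>
  ⟨fun g x D => mem_Box g x D, fun x D => mem_Box_X x D, fun M x D => mem_Cop M x D,
    fun h g hh => mem_mdiv h g hh, fun g D => card_Box g D⟩

end Pool.Agent.T9h58.GF
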