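import Pool.Agent.T9h58.GF.BoxMem

/-!
# Counting polynomials in boxes
-/

set_option autoImplicit false

namespace Pool.Agent.T9h58.GF

open Polynomial Finset
open Pool.Agent.T9h42.GF (Box Cop mdiv BoxMem BoxCount BoxCop DivCount LocCount)

section
variable {k : Type} [Field k] [Fintype k]

omit [Fintype k] in
/-- the condition of a box after division -/
lemma degree_iff {n : k[X]} (hn : n ≠ 0) {D : ℕ} (hD : n.natDegree ≤ D) (a y : k[X]) :
    (a + n * y).degree < D ↔ (y - -(a / n)).degree < (D - n.natDegree : ℕ) := by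
  have h1 : a = n * (a / n) + a % n := (EuclideanDomain.div_add_mod a n).symm
  have h2 : a + n * y = n * (y - -(a / n)) + a % n := by
    conv_lhs => rw [h1]
    ring
  have h3 : (a % n).degree < D := by
    refine lt_of_lt_of_le (EuclideanDomain.mod_lt a hn) ?_
    rw [degree_eq_natDegree hn]
    exact_mod_cast hD
  rw [h2]
  have h4 : (n * (y - -(a / n)) + a % n).degree < D ↔ (n * (y - -(a / n))).degree < D := by
    constructor
    · intro h
      have := lt_of_le_of_lt (degree_sub_le _ _) (max_lt h h3)
      simpa using this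
    · intro h
      exact lt_of_le_of_lt (degree_add_le _ _) (max_lt h h3)
  rw [h4, degree_mul, degree_eq_natDegree hn]
  by_cases h5 : y - -(a / n) = 0
  · rw [h5, degree_zero]
    simp
  · rw [degree_eq_natDegree h5]
    norm_cast
    omega

theorem boxCount' (n r g : k[X]) (D : ℕ) (hn : n ≠ 0) (hD : n.natDegree ≤ D) :
    {x ∈ (Box g D : Set k[X]) | n ∣ x - r}.ncard = Fintype.card k ^ (D - n.natDegree) := by
  classical
  have h1 : {x ∈ (Box g D : Set k[X]) | n ∣ x - r} =
      (fun y => r + n * y) '' (Box (-((r - g) / n)) (D - n.natDegree) : Set k[X]) := by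
    ext x
    rw [Set.mem_ofPred_eq, Set.mem_image, mem_coe, mem_Box]
    constructor
    · rintro ⟨h1, y, hy⟩
      refine ⟨y, ?_, ?_⟩
      · rw [mem_coe, mem_Box, ← degree_iff hn hD]
        have : r - g + n * y = x - g := by rw [← hy]; ring
        rw [this]
        exact h1
      · rw [← hy]; ring
    · rintro ⟨y, hy, rfl⟩
      rw [mem_coe, mem_Box, ← degree_iff hn hD] at hy
      refine ⟨?_, ?_⟩
      · have : r + n * y - g = r - g + n * y := by ring
        rw [this]
        exact hy
      · rw [add_sub_cancel_left]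
        exact dvd_mul_right _ _
  rw [h1, Set.ncard_image_of_injective, Set.ncard_coe_finset, card_Box]
  intro y y' h
  simp only [add_right_inj] at h
  exact mul_left_cancel₀ hn h

end

theorem boxCount : BoxCount := fun _ _ _ n r g D hn hD => boxCount' n r g D hn hD

section
variable {k : Type} [Field k] [Fintype k]

open Classical in
/-- the number of the residue classes prime to `M` -/
noncomputable def phi (M : k[X]) : ℕ := ((Box 0 M.natDegree).filter (IsCoprime · M)).card

lemma coprime_mod (x M : k[X]) : IsCoprime (x % M) M ↔ IsCoprime x M := by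
  have h := EuclideanDomain.div_add_mod x M
  constructor
  · intro h1
    rw [← h, add_comm]
    exact IsCoprime.add_mul_left_left h1 _
  · intro h1
    have h2 : x % M = x + M * (-(x / M)) := by linear_combination h
    rw [h2]
    exact IsCoprime.add_mul_left_left h1 _

lemma mod_mem {M : k[X]} (hM : M ≠ 0) (x : k[X]) : x % M ∈ Box 0 M.natDegree := by
  rw [mem_Box, sub_zero, ← degree_eq_natDegree hM]
  exact EuclideanDomain.mod_lt x hM

lemma phi_pos {M : k[X]} (hM : M ≠ 0) : 0 < phi M := by
  classical
  unfold phi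
  rw [card_pos]
  refine ⟨1 % M, ?_⟩
  rw [mem_filter]
  exact ⟨mod_mem hM 1, (coprime_mod 1 M).2 isCoprime_one_left⟩

theorem boxCop' {M : k[X]} (hM : M ≠ 0) (g w : k[X]) (D : ℕ) (hD : M.natDegree ≤ D) :
    {x ∈ (Box g D : Set k[X]) | IsCoprime (x - w) M}.ncard =
      phi M * Fintype.card k ^ (D - M.natDegree) := by
  classical
  have h1 : {x ∈ (Box g D : Set k[X]) | IsCoprime (x - w) M} =
      (((Box g D).filter (fun x => IsCoprime (x - w) M) : Finset k[X]) : Set k[X]) := by
    ext x
    simp
  rw [h1, Set.ncard_coe_finset]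
  rw [card_eq_sum_card_fiberwise (f := fun x => (x - w) % M)
    (t := (Box 0 M.natDegree).filter (IsCoprime · M))]
  · unfold phi
    rw [sum_const_nat (m := Fintype.card k ^ (D - M.natDegree))]
    intro s hs
    rw [mem_filter] at hs
    rw [← boxCount' M (w + s) g D hM hD]
    rw [← Set.ncard_coe_finset]
    congr 1
    ext x
    simp only [coe_filter, mem_filter, Set.mem_ofPred_eq, mem_coe]
    have hs1 : s % M = s := by
      rw [mem_Box, sub_zero, ← degree_eq_natDegree hM] at hs
      exact mod_eq_self_iff hM |>.2 hs.1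
    constructor
    · rintro ⟨⟨h2, h3⟩, h4⟩
      refine ⟨h2, ?_⟩
      have h5 : x - (w + s) = M * ((x - w) / M) := by
        have := EuclideanDomain.div_add_mod (x - w) M
        rw [h4] at this
        linear_combination -this
      rw [h5]
      exact dvd_mul_right _ _
    · rintro ⟨h2, y, hy⟩
      have h5 : (x - w) % M = s := by
        have : x - w = s + M * y := by rw [← hy]; ring
        rw [this, add_mod, hs1]
        have h6 : M * y % M = 0 := EuclideanDomain.mod_eq_zero.2 (dvd_mul_right _ _)
        rw [h6, add_zero]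
      refine ⟨⟨h2, ?_⟩, h5⟩
      rw [← coprime_mod, h5]
      exact hs.2
  · intro x hx
    rw [mem_coe, mem_filter] at hx
    rw [mem_coe, mem_filter]
    exact ⟨mod_mem hM _, (coprime_mod _ _).2 hx.2⟩

theorem card_Cop {M : k[X]} (hM : M ≠ 0) (D : ℕ) (hD : M.natDegree ≤ D) :
    (Cop M D).card = phi M * Fintype.card k ^ (D - M.natDegree) := by
  classical
  rw [← boxCop' hM (X ^ D) 0 D hD, ← Set.ncard_coe_finset]
  congr 1
  ext x
  rw [mem_coe, mem_Cop, Set.mem_ofPred_eq, mem_coe, mem_Box_X, sub_zero, and_assoc]

/-- the elements of `Cop M D` divisible by `g` -/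
lemma dvd_Cop (M g : k[X]) (D : ℕ) (hg : g.Monic) (hgM : IsCoprime g M) :
    {x ∈ (Cop M D : Set k[X]) | g ∣ x}.ncard =
      if g.natDegree ≤ D then (Cop M (D - g.natDegree)).card else 0 := by
  classical
  split_ifs with h
  · have h1 : {x ∈ (Cop M D : Set k[X]) | g ∣ x} =
        (fun y => g * y) '' (Cop M (D - g.natDegree) : Set k[X]) := by
      ext x
      rw [Set.mem_ofPred_eq, Set.mem_image, mem_coe, mem_Cop]
      constructor
      · rintro ⟨⟨h1, h2, h3⟩, y, rfl⟩
        have hy : y.Monic := (hg.of_mul_monic_left h1)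
        refine ⟨y, ?_, rfl⟩
        rw [mem_coe, mem_Cop]
        rw [hg.natDegree_mul hy] at h2
        exact ⟨hy, by omega, h3.of_mul_left_right⟩
      · rintro ⟨y, hy, rfl⟩
        rw [mem_coe, mem_Cop] at hy
        refine ⟨⟨hg.mul hy.1, ?_, IsCoprime.mul_left hgM hy.2.2⟩, dvd_mul_right _ _⟩
        rw [hg.natDegree_mul hy.1, hy.2.1]
        omega
    rw [h1, Set.ncard_image_of_injective, Set.ncard_coe_finset]
    exact fun y y' h => mul_left_cancel₀ hg.ne_zero h
  · have h1 : {x ∈ (Cop M D : Set k[X]) | g ∣ x} = ∅ := by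
      ext x
      rw [Set.mem_ofPred_eq, mem_coe, mem_Cop]
      simp only [Set.mem_empty_iff_false, iff_false]
      rintro ⟨⟨h1, h2, -⟩, h3⟩
      have := natDegree_le_of_dvd h3 h1.ne_zero
      omega
    rw [h1, Set.ncard_empty]

lemma card_Cop_le (M : k[X]) (D : ℕ) : (Cop M D).card ≤ Fintype.card k ^ D := by
  classical
  unfold Cop
  exact (card_filter_le _ _).trans (card_Box _ _).le

end

theorem boxCop : BoxCop := fun _ _ _ M hM =>
  ⟨phi M, phi_pos hM, fun g w D hD => boxCop' hM g w D hD⟩

theorem divCount : DivCount := by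
  intro k _ _ M hM g D hg hgM hD
  have hq : 0 < Fintype.card k := Fintype.card_pos
  rw [dvd_Cop M g D hg hgM, card_Cop hM D hD]
  constructor
  · intro h
    rw [if_pos (by omega), card_Cop hM _ (by omega), mul_assoc, ← pow_add]
    congr 2
    omega
  · split_ifs with h
    · calc (Cop M (D - g.natDegree)).card * Fintype.card k ^ g.natDegree
          ≤ Fintype.card k ^ (D - g.natDegree) * Fintype.card k ^ g.natDegree :=
            Nat.mul_le_mul_right _ (card_Cop_le _ _)
        _ = Fintype.card k ^ D := by
            rw [← pow_add]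
            congr 1
            omega
        _ = Fintype.card k ^ M.natDegree * (1 * Fintype.card k ^ (D - M.natDegree)) := by
            rw [one_mul, ← pow_add]
            congr 1
            omega
        _ ≤ _ := Nat.mul_le_mul_left _ (Nat.mul_le_mul_right _ (phi_pos hM))
    · rw [zero_mul]
      exact Nat.zero_le _

end Pool.Agent.T9h58.GF
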