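import Pool.Agent.T9h58.GF.Count

/-!
# Solutions of `c = α'' x + β z` with local conditions
-/

set_option autoImplicit false

namespace Pool.Agent.T9h58.GF

open Polynomial Finset
open Pool.Agent.T9h42.GF (Box Cop mdiv BoxMem BoxCount BoxCop DivCount LocCount)

section
variable {k : Type} [Field k]

lemma crt {a b : k[X]} (h : IsCoprime a b) (r s : k[X]) : ∃ x, a ∣ x - r ∧ b ∣ x - s := by
  obtain ⟨u, v, h1⟩ := h
  exact ⟨r * v * b + s * u * a, ⟨(s - r) * u, by linear_combination r * h1⟩,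
    ⟨(r - s) * v, by linear_combination s * h1⟩⟩

lemma inv_mod {m n : k[X]} (h : IsCoprime m n) (r : k[X]) : ∃ w, n ∣ r + m * w := by
  obtain ⟨u, v, h1⟩ := h
  exact ⟨-(u * r), ⟨r * v, by linear_combination (-r) * h1⟩⟩

lemma cop_sub {a x t : k[X]} (h : a ∣ t) : IsCoprime (x - t) a ↔ IsCoprime x a := by
  obtain ⟨y, rfl⟩ := h
  constructor
  · intro h1
    have := IsCoprime.add_mul_left_left h1 y
    rwa [sub_add_cancel] at this
  · intro h1
    have := IsCoprime.add_mul_left_left h1 (-y)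
    rwa [mul_neg, ← sub_eq_add_neg] at this

end

theorem locCount : LocCount := by
  intro k _ _ α β α'' h c ρ L E d hα hβ hα'' hh h1 h2 h3 hc h4 h5 h6
  classical
  obtain ⟨hcm, hcL, hcc⟩ := (mem_Cop _ _ _).1 hc
  have hαβ : IsCoprime α β := h1.of_isCoprime_of_dvd_left h2
  have hM : (α * β).Monic := hα.mul hβ
  have hMd : (α * β).natDegree = α.natDegree + β.natDegree := hα.natDegree_mul hβ
  have hhα : IsCoprime h α := h3.of_mul_right_left
  have hhβ : IsCoprime h β := h3.of_mul_right_right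
  have hcα : IsCoprime c α := hcc.of_mul_right_left
  have hcβ : IsCoprime c β := hcc.of_mul_right_right
  -- `x₀`
  obtain ⟨x₀, z₀, hx₀, hz₀⟩ : ∃ x₀ z₀, h ∣ x₀ - ρ ∧ c = α'' * x₀ + β * z₀ := by
    obtain ⟨y, z, hz⟩ := inv_mod (m := -α'') (IsCoprime.neg_left h1) c
    obtain ⟨x, hx1, t, ht⟩ := crt hhβ ρ y
    refine ⟨x, z - α'' * t, hx1, ?_⟩
    linear_combination hz - α'' * ht
  -- `w₀`
  obtain ⟨w₀, hw1, hw2⟩ : ∃ w₀, α ∣ x₀ + h * β * w₀ ∧ β ∣ z₀ - α'' * h * w₀ := by
    obtain ⟨w1, t1, ht1⟩ := inv_mod (IsCoprime.mul_left hhα hαβ.symm) x₀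
    obtain ⟨w2, t2, ht2⟩ := inv_mod (m := -(α'' * h)) (IsCoprime.neg_left (IsCoprime.mul_left h1 hhβ)) z₀
    obtain ⟨w, ⟨s1, hs1⟩, s2, hs2⟩ := crt hαβ w1 w2
    refine ⟨w, ⟨t1 + h * β * s1, ?_⟩, ⟨t2 - α'' * h * s2, ?_⟩⟩
    · linear_combination ht1 + h * β * hs1
    · linear_combination ht2 - α'' * h * hs2
  have hhβm : (h * β).Monic := hh.mul hβ
  have hhβd : (h * β).natDegree = h.natDegree + β.natDegree := hh.natDegree_mul hβ
  set a : k[X] := -(c - β * X ^ E) with ha
  set Y : k[X] := -(a / α'') with hY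
  -- the degree conditions
  have hdeg : ∀ x z : k[X], c = α'' * x + β * z → ((z - X ^ E).degree < (E : WithBot ℕ) ↔
      (x - Y).degree < ((E + β.natDegree - α''.natDegree : ℕ) : WithBot ℕ)) := by
    intro x z hxz
    rw [hY, ← degree_iff hα''.ne_zero (by omega)]
    have e1 : a + α'' * x = -(β * (z - X ^ E)) := by
      rw [ha]
      linear_combination -hxz
    rw [e1, degree_neg, degree_mul, degree_eq_natDegree hβ.ne_zero]
    by_cases h0 : z - X ^ E = 0
    · rw [h0, degree_zero]
      simp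
    · rw [degree_eq_natDegree h0]
      norm_cast
      omega
  have hdeg2 : ∀ w : k[X], ((x₀ + h * β * w - Y).degree <
      ((E + β.natDegree - α''.natDegree : ℕ) : WithBot ℕ) ↔
      (w - -((x₀ - Y) / (h * β))).degree <
        ((E + β.natDegree - α''.natDegree - (h * β).natDegree : ℕ) : WithBot ℕ)) := by
    intro w
    rw [← degree_iff hhβm.ne_zero (by omega)]
    have : x₀ + h * β * w - Y = x₀ - Y + h * β * w := by ring
    rw [this]
  -- the coprimality conditions
  have hcopx : ∀ w, IsCoprime (x₀ + h * β * w) α ↔ IsCoprime (w - w₀) α := by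
    intro w
    rw [← cop_sub hw1]
    have : x₀ + h * β * w - (x₀ + h * β * w₀) = (h * β) * (w - w₀) := by ring
    rw [this]
    constructor
    · intro h7
      exact h7.of_mul_left_right
    · intro h7
      exact IsCoprime.mul_left (IsCoprime.mul_left hhα hαβ.symm) h7
  have hcopz : ∀ w, IsCoprime (z₀ - α'' * h * w) β ↔ IsCoprime (w - w₀) β := by
    intro w
    rw [← cop_sub hw2]
    have : z₀ - α'' * h * w - (z₀ - α'' * h * w₀) = -((α'' * h) * (w - w₀)) := by ring
    rw [this, IsCoprime.neg_left_iff]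
    constructor
    · intro h7
      exact h7.of_mul_left_right
    · intro h7
      exact IsCoprime.mul_left (IsCoprime.mul_left h1 hhβ) h7
  have hset : {x ∈ (Cop (α * β) d : Set k[X]) | h ∣ x - ρ ∧ ∃ z ∈ Cop (α * β) E, c = α'' * x + β * z}
      = (fun w => x₀ + h * β * w) '' {w ∈ (Box (-((x₀ - Y) / (h * β)))
        (E + β.natDegree - α''.natDegree - (h * β).natDegree) : Set k[X]) |
          IsCoprime (w - w₀) (α * β)} := by
    ext x
    rw [Set.mem_ofPred_eq, Set.mem_image, mem_coe, mem_Cop]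
    constructor
    · rintro ⟨⟨-, -, hx3⟩, ⟨t, ht⟩, z, hz, hxz⟩
      obtain ⟨hz1, hz2, hz3⟩ := (mem_Cop _ _ _).1 hz
      obtain ⟨t', ht'⟩ := hx₀
      have e1 : h ∣ x - x₀ := ⟨t - t', by linear_combination ht - ht'⟩
      have e2 : β ∣ x - x₀ := by
        refine h1.symm.dvd_of_dvd_mul_left ⟨z₀ - z, ?_⟩
        linear_combination hz₀ - hxz
      obtain ⟨w, hw⟩ := hhβ.mul_dvd e1 e2
      have e3 : x = x₀ + h * β * w := by linear_combination hw
      have e4 : z = z₀ - α'' * h * w := by
        refine mul_left_cancel₀ hβ.ne_zero ?_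
        rw [e3] at hxz
        linear_combination hz₀ - hxz
      refine ⟨w, ⟨?_, ?_⟩, e3.symm⟩
      · rw [mem_coe, mem_Box, ← hdeg2, ← e3, ← hdeg x z hxz, ← mem_Box]
        exact (mem_Box_X z E).2 ⟨hz1, hz2⟩
      · refine IsCoprime.mul_right ((hcopx w).1 ?_) ((hcopz w).1 ?_)
        · rw [← e3]
          exact hx3.of_mul_right_left
        · rw [← e4]
          exact hz3.of_mul_right_right
    · rintro ⟨w, ⟨hw3, hw4⟩, rfl⟩
      have hxz : c = α'' * (x₀ + h * β * w) + β * (z₀ - α'' * h * w) := by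
        linear_combination hz₀
      rw [mem_coe, mem_Box, ← hdeg2, ← hdeg _ _ hxz, ← mem_Box, mem_Box_X] at hw3
      have hxα := (hcopx w).2 hw4.of_mul_right_left
      have hzβ := (hcopz w).2 hw4.of_mul_right_right
      show ((x₀ + h * β * w).Monic ∧ (x₀ + h * β * w).natDegree = d ∧
        IsCoprime (x₀ + h * β * w) (α * β)) ∧ _ ∧ _
      obtain ⟨x, hx⟩ : ∃ x, x = x₀ + h * β * w := ⟨_, rfl⟩
      obtain ⟨z, hz⟩ : ∃ z, z = z₀ - α'' * h * w := ⟨_, rfl⟩
      rw [← hx] at hxα hxz ⊢
      rw [← hz] at hw3 hzβ hxz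
      have hβz : (β * z).natDegree = β.natDegree + E := by
        rw [hβ.natDegree_mul hw3.1, hw3.2]
      have e5 : α'' * x = c - β * z := by linear_combination -hxz
      have e6 : (β * z).degree < c.degree := by
        rw [degree_eq_natDegree (hβ.mul hw3.1).ne_zero, degree_eq_natDegree hcm.ne_zero, hβz, hcL]
        exact_mod_cast h5
      have hxm : x.Monic := by
        refine hα''.of_mul_monic_left ?_
        rw [e5]
        exact hcm.sub_of_left e6
      have hxd : x.natDegree = d := by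
        have e7 := hα''.natDegree_mul hxm
        rw [e5, natDegree_sub_eq_left_of_natDegree_lt (by rw [hβz, hcL]; exact h5), hcL] at e7
        omega
      have hxβ : IsCoprime x β := by
        have e8 : IsCoprime (c - β * z) β := (cop_sub (dvd_mul_right _ _)).2 hcβ
        rw [← e5] at e8
        exact e8.of_mul_left_right
      have hzα : IsCoprime z α := by
        have e8 : IsCoprime (c - α'' * x) α := (cop_sub (h2.mul_right x)).2 hcα
        have e9 : c - α'' * x = β * z := by linear_combination hxz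
        rw [e9] at e8
        exact e8.of_mul_left_right
      refine ⟨⟨hxm, hxd, IsCoprime.mul_right hxα hxβ⟩, ?_, z, ?_, hxz⟩
      · obtain ⟨t', ht'⟩ := hx₀
        exact ⟨t' + β * w, by rw [hx]; linear_combination ht'⟩
      · exact (mem_Cop _ _ _).2 ⟨hw3.1, hw3.2, IsCoprime.mul_right hzα hzβ⟩
  rw [hset, Set.ncard_image_of_injective, boxCop' hM.ne_zero _ _ _ (by omega),
    card_Cop hM.ne_zero d (by omega), mul_assoc, ← pow_add]
  · congr 2
    omega
  · intro w w' hww
    simp only [add_right_inj] at hww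
    exact mul_left_cancel₀ hhβm.ne_zero hww

end Pool.Agent.T9h58.GF
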